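import Pool.Agent.Helper92.GC.D3
import Pool.Agent.Helper92.GC.D4
import Pool.Agent.Helper92.GC.Main

/-!
# CX-ASM: from octant bounds to the circle problem

If the octant sums with `K ≤ R₀^(1 - θ + δ₀)` are at most `C R₀^(θ - 1/2 + ε) K^(3/2)` then the error in the circle problem is at most
`C R^(θ + ε)`, for all radii and all centres.
-/

open MeasureTheory Real Set Filter Topology

set_option autoImplicit false

namespace Pool.Agent.Helper92.CX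

open Pool.Agent.Helper92.GC
open Pool.Agent.Helper22.AE

/-- the octant bound which gives the exponent `θ` -/
def OctB (θ δ₀ : ℝ) : Prop := ∀ ε : ℝ, 0 < ε → ∃ C : ℝ, 0 < C ∧ ∀ (R₀ R : ℝ) (K : ℕ), 1 ≤ R₀ → R₀ / 4 ≤ R → R ≤ 4 * R₀ →
  1 ≤ K → (K : ℝ) ≤ R₀ ^ (1 - θ + δ₀) → ∀ i : ℕ, (i = 1 ∨ i = 2) → ∀ c : ℝ × ℝ,
    ‖bs (oct K) K i R c‖ ≤ C * R₀ ^ (θ - 1 / 2 + ε) * (K : ℝ) ^ (3 / 2 : ℝ)

theorem asm {θ δ₀ : ℝ} (hθ : 1 / 2 ≤ θ) (hθ1 : θ < 1) (hδ : 0 < δ₀) (h : OctB θ δ₀) {ε : ℝ} (hε : 0 < ε) :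
    ∃ C : ℝ, ∀ R : ℝ, 1 ≤ R → ∀ c : ℝ × ℝ, |dcnt c R - π * R ^ 2| ≤ C * R ^ (θ + ε) := by
  obtain ⟨e2, he2, he2δ, he21⟩ : ∃ e2 : ℝ, 0 < e2 ∧ e2 ≤ δ₀ ∧ e2 ≤ 1 / 2 :=
    ⟨min δ₀ (1 / 2), lt_min hδ (by norm_num), min_le_left _ _, min_le_right _ _⟩
  obtain ⟨C1, R1, hR1, hblocks⟩ := disc_blocks (τ := 1 - θ) (e2 := e2) (by linarith) (by linarith) he2
  obtain ⟨C2, hC2, hft⟩ := ft_sum_bound
  obtain ⟨C3, hC3, hoct⟩ := h (ε / 4) (by linarith)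
  obtain ⟨C4, hbdd⟩ := dcnt_bdd R1
  refine ⟨|C1| + (8 / ε + 1) * (C2 * (8 * C3 + 17)) + |C4|, ?_⟩
  intro X hX c
  have hX0 : 0 < X := by linarith
  have hbig : 1 ≤ X ^ (θ + ε) := one_le_rpow hX (by linarith)
  have hc1 : 0 ≤ |C1| := abs_nonneg _
  have hc4 : 0 ≤ |C4| := abs_nonneg _
  have hc2 : 0 ≤ (8 / ε + 1) * (C2 * (8 * C3 + 17)) := by positivity
  rcases le_total X R1 with hXR | hXR
  · refine (hbdd X hX hXR c).trans ((le_abs_self _).trans ?_)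
    nlinarith
  -- the number of blocks
  have hl2 : 0 < log 2 := log_pos (by norm_num)
  have hlX : 0 ≤ log X := log_nonneg hX
  set n1 : ℕ := ⌈(1 - θ + e2) * (log X / log 2)⌉₊ with hn1
  have hpow : X ^ (1 - θ + e2) = (2 : ℝ) ^ ((1 - θ + e2) * (log X / log 2)) := by
    rw [rpow_def_of_pos hX0, rpow_def_of_pos (by norm_num : (0 : ℝ) < 2)]
    congr 1
    field_simp
  have hn1a : X ^ (1 - θ + e2) ≤ 2 ^ n1 := by
    rw [hpow, ← rpow_natCast]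
    exact rpow_le_rpow_of_exponent_le (by norm_num) (Nat.le_ceil _)
  have hn1b : ∀ n < n1, (2 : ℝ) ^ n ≤ X ^ (1 - θ + e2) := by
    intro n hn
    rw [hpow, ← rpow_natCast]
    exact rpow_le_rpow_of_exponent_le (by norm_num) (Nat.lt_ceil.1 hn).le
  have hn1c : (n1 : ℝ) ≤ (8 / ε + 1) * X ^ (ε / 4) := by
    have h0 : 0 ≤ (1 - θ + e2) * (log X / log 2) := by
      have : 0 ≤ 1 - θ + e2 := by linarith
      positivity
    have h1 : (n1 : ℝ) < (1 - θ + e2) * (log X / log 2) + 1 := Nat.ceil_lt_add_one h0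
    have h2 : log X ≤ X ^ (ε / 4) / (ε / 4) := log_le_rpow_div hX0.le (by linarith)
    have h3 : (1 : ℝ) / 2 < log 2 := by
      have := log_two_gt_d9
      linarith
    have h4 : log X / log 2 ≤ 2 * log X := by
      rw [div_le_iff₀ hl2]
      nlinarith
    have h5 : (1 - θ + e2) * (log X / log 2) ≤ 2 * log X := by
      have h6 : 0 ≤ log X / log 2 := by positivity
      nlinarith
    have h7 : 1 ≤ X ^ (ε / 4) := one_le_rpow hX (by linarith)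
    have h8 : 2 * (X ^ (ε / 4) / (ε / 4)) = 8 / ε * X ^ (ε / 4) := by
      field_simp
      ring
    calc (n1 : ℝ) ≤ 2 * log X + 1 := by linarith
      _ ≤ 8 / ε * X ^ (ε / 4) + X ^ (ε / 4) := by linarith
      _ = (8 / ε + 1) * X ^ (ε / 4) := by ring
  -- the bounds of the blocks
  set S : ℕ → ℝ := fun K => 8 * (C3 * X ^ (θ - 1 / 2 + ε / 4) * (K : ℝ) ^ (3 / 2 : ℝ)) + 16 * K with hS
  set B : ℕ → ℝ := fun n => C2 * (X ^ (1 / 2 : ℝ) * ((2 ^ n : ℕ) : ℝ) ^ (-(3 / 2) : ℝ) * S (2 ^ n) + 1)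
    with hB
  have hK1 : ∀ n : ℕ, (1 : ℝ) ≤ ((2 ^ n : ℕ) : ℝ) := by
    intro n
    push_cast
    exact one_le_pow₀ (by norm_num)
  have hSnn : ∀ K : ℕ, 0 ≤ S K := by
    intro K
    simp only [hS]
    positivity
  have hBle : ∀ n ∈ Finset.range n1, B n ≤ C2 * (8 * C3 + 17) * X ^ (θ + ε / 4) := by
    intro n _
    have hK0 : 0 < ((2 ^ n : ℕ) : ℝ) := by linarith [hK1 n]
    have e1 : ((2 ^ n : ℕ) : ℝ) ^ (-(3 / 2) : ℝ) * ((2 ^ n : ℕ) : ℝ) ^ (3 / 2 : ℝ) = 1 := by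
      rw [← rpow_add hK0]
      norm_num
    have e2' : ((2 ^ n : ℕ) : ℝ) ^ (-(3 / 2) : ℝ) * ((2 ^ n : ℕ) : ℝ) ≤ 1 := by
      have h1 : ((2 ^ n : ℕ) : ℝ) ^ (-(3 / 2) : ℝ) * ((2 ^ n : ℕ) : ℝ) =
          ((2 ^ n : ℕ) : ℝ) ^ (-(1 / 2) : ℝ) := by
        nth_rewrite 2 [← rpow_one ((2 ^ n : ℕ) : ℝ)]
        rw [← rpow_add hK0]
        norm_num
      rw [h1]
      exact rpow_le_one_of_one_le_of_nonpos (hK1 n) (by norm_num)
    have e3 : X ^ (1 / 2 : ℝ) * X ^ (θ - 1 / 2 + ε / 4) = X ^ (θ + ε / 4) := by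
      rw [← rpow_add hX0]
      ring_nf
    have e4 : X ^ (1 / 2 : ℝ) ≤ X ^ (θ + ε / 4) := rpow_le_rpow_of_exponent_le hX (by linarith)
    have e5 : 1 ≤ X ^ (θ + ε / 4) := one_le_rpow hX (by linarith)
    have h1 : X ^ (1 / 2 : ℝ) * ((2 ^ n : ℕ) : ℝ) ^ (-(3 / 2) : ℝ) * S (2 ^ n) ≤
        (8 * C3 + 16) * X ^ (θ + ε / 4) := by
      have h2 : X ^ (1 / 2 : ℝ) * ((2 ^ n : ℕ) : ℝ) ^ (-(3 / 2) : ℝ) * S (2 ^ n) =
          8 * C3 * (X ^ (1 / 2 : ℝ) * X ^ (θ - 1 / 2 + ε / 4)) *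
            (((2 ^ n : ℕ) : ℝ) ^ (-(3 / 2) : ℝ) * ((2 ^ n : ℕ) : ℝ) ^ (3 / 2 : ℝ)) +
          16 * X ^ (1 / 2 : ℝ) * (((2 ^ n : ℕ) : ℝ) ^ (-(3 / 2) : ℝ) * ((2 ^ n : ℕ) : ℝ)) := by
        simp only [hS]
        ring
      rw [h2, e1, e3, mul_one]
      have h3 : 16 * X ^ (1 / 2 : ℝ) * (((2 ^ n : ℕ) : ℝ) ^ (-(3 / 2) : ℝ) * ((2 ^ n : ℕ) : ℝ)) ≤
          16 * X ^ (1 / 2 : ℝ) * 1 := mul_le_mul_of_nonneg_left e2' (by positivity)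
      linarith
    calc B n ≤ C2 * ((8 * C3 + 16) * X ^ (θ + ε / 4) + X ^ (θ + ε / 4)) :=
          mul_le_mul_of_nonneg_left (by linarith) hC2.le
      _ = C2 * (8 * C3 + 17) * X ^ (θ + ε / 4) := by ring
  have hsum : ∑ n ∈ Finset.range n1, B n ≤
      (8 / ε + 1) * (C2 * (8 * C3 + 17)) * X ^ (θ + ε) := by
    refine (Finset.sum_le_sum hBle).trans ?_
    rw [Finset.sum_const, Finset.card_range, nsmul_eq_mul]
    have h3 : X ^ (ε / 4) * X ^ (θ + ε / 4) ≤ X ^ (θ + ε) := by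
      rw [← rpow_add hX0]
      exact rpow_le_rpow_of_exponent_le hX (by linarith)
    calc (n1 : ℝ) * (C2 * (8 * C3 + 17) * X ^ (θ + ε / 4)) ≤
        (8 / ε + 1) * X ^ (ε / 4) * (C2 * (8 * C3 + 17) * X ^ (θ + ε / 4)) :=
          mul_le_mul_of_nonneg_right hn1c (by positivity)
      _ = (8 / ε + 1) * (C2 * (8 * C3 + 17)) * (X ^ (ε / 4) * X ^ (θ + ε / 4)) := by ring
      _ ≤ _ := mul_le_mul_of_nonneg_left h3 hc2
  have hmain := hblocks X hXR n1 hn1a B (by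
    intro n hn r hr c'
    refine hft X r (S (2 ^ n)) (2 ^ n) hX hr.1 hr.2 Nat.one_le_two_pow (hSnn _) ?_ c'
    intro r' hr' i hi c''
    have hK : (((2 ^ n : ℕ) : ℝ)) ≤ X ^ (1 - θ + δ₀) := by
      push_cast
      exact (hn1b n hn).trans (rpow_le_rpow_of_exponent_le hX (by linarith))
    exact sqa_oct Nat.one_le_two_pow
      (fun c => hoct X r' (2 ^ n) hX hr'.1 hr'.2 Nat.one_le_two_pow hK i hi c) c'')
    X ⟨le_rfl, by linarith⟩ c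
  refine hmain.trans ?_
  have h5 : X ^ (1 - (1 - θ) : ℝ) ≤ X ^ (θ + ε) := rpow_le_rpow_of_exponent_le hX (by linarith)
  have h6 : C1 * X ^ (1 - (1 - θ) : ℝ) ≤ |C1| * X ^ (θ + ε) := by
    refine (mul_le_mul_of_nonneg_right (le_abs_self C1) (by positivity)).trans ?_
    exact mul_le_mul_of_nonneg_left h5 hc1
  have h7 : 0 ≤ |C4| * X ^ (θ + ε) := by positivity
  calc C1 * X ^ (1 - (1 - θ) : ℝ) + ∑ n ∈ Finset.range n1, B n ≤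
      |C1| * X ^ (θ + ε) + (8 / ε + 1) * (C2 * (8 * C3 + 17)) * X ^ (θ + ε) := add_le_add h6 hsum
    _ ≤ _ := by linarith

end Pool.Agent.Helper92.CX
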