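import Pool.Agent.Helper92.CX.Asm
import Pool.Agent.Helper64.GS.Oct
import Pool.Agent.Helper46.BF.Oct6

/-!
# CX-BEST: the exponent 263/421 + ε = 0.6247...

The octant sums are bounded trivially for `K ≤ R^(105/421)`, by `oct6` (sixth derivative test, helper46) for
`R^(105/421) ≤ K ≤ R^(109/421)`, and by the Gaussian sixth moment (`oct_bound0`, helper64) for `K ≥ R^(109/421)`.
-/

open MeasureTheory Real Set Filter Topology

set_option autoImplicit false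

namespace Pool.Agent.Helper92.CX

open Pool.Agent.Helper92.GC
open Pool.Agent.Helper22.AE

lemma le_nk_of_mem_oct {K : ℕ} {k : ℤ × ℤ} (hk : k ∈ oct K) : (K : ℝ) ≤ nk k := by
  have h := (Finset.mem_filter.1 hk).2
  have h1 : (K : ℝ) ≤ (k.1 : ℝ) := by exact_mod_cast h.1
  have e : nk k = Real.sqrt ((k.1 : ℝ) ^ 2 + (k.2 : ℝ) ^ 2) := by
    unfold nk
    rw [show ‖cz k‖ = Real.sqrt (Complex.normSq (cz k)) from rfl]
    congr 1
    simp [cz, Complex.normSq_apply]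
    ring
  rw [e]
  refine Real.le_sqrt_of_sq_le ?_
  have h2 : (0 : ℝ) ≤ K := Nat.cast_nonneg _
  nlinarith [sq_nonneg (k.2 : ℝ)]

theorem oct_triv {K i : ℕ} {R : ℝ} (hK : 1 ≤ K) (c : ℝ × ℝ) : ‖bs (oct K) K i R c‖ ≤ 25 * (K : ℝ) ^ 2 := by
  have hK0 : (0 : ℝ) < K := by exact_mod_cast hK
  unfold bs
  refine (norm_sum_le _ _).trans ?_
  refine (Finset.sum_le_card_nsmul _ _ 1 fun k hk => ?_).trans ?_
  · have h1 := le_nk_of_mem_oct hk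
    have h2 : 0 < nk k := lt_of_lt_of_le hK0 h1
    have h3 : ‖ee (R * nk k + dt k c)‖ = 1 := by
      first
        | exact norm_ee _
        | simp [ee, Complex.norm_exp]
    rw [norm_mul, h3, mul_one, norm_pow, Complex.norm_real, Real.norm_eq_abs, abs_of_nonneg (by positivity)]
    exact pow_le_one₀ (by positivity) ((div_le_one h2).2 h1)
  · rw [nsmul_eq_mul, mul_one]
    have h1 : (oct K).card ≤ (box (2 * K)).card := Finset.card_le_card (Finset.filter_subset _ _)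
    have h2 : (box (2 * K)).card = (4 * K + 1) * (4 * K + 1) := by
      unfold box
      rw [Finset.card_product, Int.card_Icc]
      have : ((2 * K : ℕ) : ℤ) + 1 - -((2 * K : ℕ) : ℤ) = ((4 * K + 1 : ℕ) : ℤ) := by
        push_cast
        ring
      rw [this, Int.toNat_natCast]
    have h3 : (4 * K + 1) * (4 * K + 1) ≤ (5 * K) * (5 * K) :=
      Nat.mul_le_mul (by omega) (by omega)
    have h4 : (oct K).card ≤ 25 * K ^ 2 := by
      calc (oct K).card ≤ (5 * K) * (5 * K) := (h1.trans h2.le).trans h3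
        _ = 25 * K ^ 2 := by ring
    exact_mod_cast h4

/-- range (A) -/
private lemma rA {ε X K : ℝ} (hε : 0 < ε) (hX : 1 ≤ X) (hK1 : 1 ≤ K) (hK : K ≤ X ^ (105 / 421 : ℝ)) :
    25 * K ^ 2 ≤ 25 * X ^ (263 / 421 - 1 / 2 + ε) * K ^ (3 / 2 : ℝ) := by
  have hX0 : 0 < X := by linarith
  have hK0 : 0 < K := by linarith
  obtain ⟨x, rfl⟩ : ∃ x, X = exp x := ⟨log X, (exp_log hX0).symm⟩
  obtain ⟨k, rfl⟩ : ∃ k, K = exp k := ⟨log K, (exp_log hK0).symm⟩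
  have hx : 0 ≤ x := one_le_exp_iff.1 hX
  have hk : 0 ≤ k := one_le_exp_iff.1 hK1
  rw [← exp_mul, exp_le_exp] at hK
  have hp : 0 ≤ ε * x := mul_nonneg hε.le hx
  have e : exp k ^ 2 = exp (2 * k) := by
    rw [← exp_nat_mul]
    norm_num
  rw [e, ← exp_mul, ← exp_mul, mul_assoc, ← exp_add]
  refine mul_le_mul_of_nonneg_left (exp_le_exp.2 ?_) (by norm_num)
  nlinarith

/-- range (B) -/
private lemma rB {ε C X R K : ℝ} (hε : 0 < ε) (hC : 0 < C) (hX : 1 ≤ X) (hR0 : 0 < R) (hR : R ≤ 4 * X) (hK1 : 1 ≤ K)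
    (hK : K ≤ X ^ (109 / 421 : ℝ)) :
    C * (K ^ 2 * (R / K ^ 5) ^ (1 / 62 : ℝ)) ≤ 2 * C * X ^ (263 / 421 - 1 / 2 + ε) * K ^ (3 / 2 : ℝ) := by
  have hX0 : 0 < X := by linarith
  have hK0 : 0 < K := by linarith
  have h4 : (R / K ^ 5) ^ (1 / 62 : ℝ) ≤ 2 * (X / K ^ 5) ^ (1 / 62 : ℝ) := by
    have h1 : (R / K ^ 5) ^ (1 / 62 : ℝ) ≤ (4 * (X / K ^ 5)) ^ (1 / 62 : ℝ) := by
      refine rpow_le_rpow (by positivity) ?_ (by norm_num)
      rw [← mul_div_assoc]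
      gcongr
    rw [mul_rpow (by norm_num) (by positivity)] at h1
    have h2 : (4 : ℝ) ^ (1 / 62 : ℝ) ≤ 2 := by
      have h3 : (4 : ℝ) ^ (1 / 62 : ℝ) ≤ 4 ^ (1 / 2 : ℝ) := rpow_le_rpow_of_exponent_le (by norm_num) (by norm_num)
      have h5 : (4 : ℝ) ^ (1 / 2 : ℝ) = 2 := by
        rw [show (4 : ℝ) = 2 ^ (2 : ℝ) by norm_num, ← rpow_mul (by norm_num)]
        norm_num
      linarith
    exact h1.trans (mul_le_mul_of_nonneg_right h2 (by positivity))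
  have h5 : K ^ 2 * (X / K ^ 5) ^ (1 / 62 : ℝ) ≤ X ^ (263 / 421 - 1 / 2 + ε) * K ^ (3 / 2 : ℝ) := by
    clear h4 hR
    obtain ⟨x, rfl⟩ : ∃ x, X = exp x := ⟨log X, (exp_log hX0).symm⟩
    obtain ⟨k, rfl⟩ : ∃ k, K = exp k := ⟨log K, (exp_log hK0).symm⟩
    have hx : 0 ≤ x := one_le_exp_iff.1 hX
    have hk : 0 ≤ k := one_le_exp_iff.1 hK1
    rw [← exp_mul, exp_le_exp] at hK
    have hp : 0 ≤ ε * x := mul_nonneg hε.le hx
    have e : exp k ^ 2 = exp (2 * k) := by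
      rw [← exp_nat_mul]
      norm_num
    have e5 : exp x / exp k ^ 5 = exp (x - 5 * k) := by
      rw [exp_sub, ← exp_nat_mul]
      norm_num
    rw [e, e5, ← exp_mul, ← exp_mul, ← exp_mul, ← exp_add, ← exp_add]
    refine exp_le_exp.2 ?_
    nlinarith
  calc C * (K ^ 2 * (R / K ^ 5) ^ (1 / 62 : ℝ)) ≤ C * (K ^ 2 * (2 * (X / K ^ 5) ^ (1 / 62 : ℝ))) := by gcongr
    _ = 2 * C * (K ^ 2 * (X / K ^ 5) ^ (1 / 62 : ℝ)) := by ring
    _ ≤ 2 * C * (X ^ (263 / 421 - 1 / 2 + ε) * K ^ (3 / 2 : ℝ)) := by gcongr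
    _ = _ := by ring

/-- range (C) -/
private lemma rC {ε e C X K : ℝ} (hC : 0 < C) (heε : e ≤ ε) (hX : 1 ≤ X) (hK1 : 1 ≤ K)
    (hK : X ^ (109 / 421 : ℝ) ≤ K) :
    C * X ^ e * K ^ (4 / 3 : ℝ) * (X * K) ^ (2 / 15 : ℝ) ≤ C * X ^ (263 / 421 - 1 / 2 + ε) * K ^ (3 / 2 : ℝ) := by
  have hX0 : 0 < X := by linarith
  have hK0 : 0 < K := by linarith
  obtain ⟨x, rfl⟩ : ∃ x, X = exp x := ⟨log X, (exp_log hX0).symm⟩
  obtain ⟨k, rfl⟩ : ∃ k, K = exp k := ⟨log K, (exp_log hK0).symm⟩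
  have hx : 0 ≤ x := one_le_exp_iff.1 hX
  have hk : 0 ≤ k := one_le_exp_iff.1 hK1
  rw [← exp_mul, exp_le_exp] at hK
  have hp : e * x ≤ ε * x := mul_le_mul_of_nonneg_right heε hx
  rw [← exp_add]
  simp only [← exp_mul]
  rw [mul_assoc, mul_assoc, mul_assoc, ← exp_add, ← exp_add, ← exp_add]
  refine mul_le_mul_of_nonneg_left (exp_le_exp.2 ?_) hC.le
  nlinarith

private lemma large : ∃ X₁ : ℝ, 1 ≤ X₁ ∧ ∀ X R K : ℝ, X₁ ≤ X → X / 4 ≤ R → R ≤ 4 * X → 1 ≤ K → X ^ (105 / 421 : ℝ) ≤ K →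
    K ≤ X ^ (109 / 421 : ℝ) → 1 ≤ R ∧ R ≤ K ^ 5 ∧ K ^ 49 ≤ R ^ 16 := by
  have ht1 := (tendsto_rpow_atTop (show (0 : ℝ) < 104 / 421 by norm_num)).eventually_ge_atTop 4
  have ht2 := (tendsto_rpow_atTop (show (0 : ℝ) < 1395 / 421 by norm_num)).eventually_ge_atTop ((4 : ℝ) ^ 16)
  obtain ⟨A, hA⟩ := (ht1.and ht2).exists_forall_of_atTop
  refine ⟨max A 4, le_trans (by norm_num) (le_max_right _ _), ?_⟩
  intro X R K hX hR hR4 hK1 hKl hKu
  have hX4 : 4 ≤ X := (le_max_right _ _).trans hX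
  have hX0 : 0 < X := by linarith
  have hX1 : 1 ≤ X := by linarith
  have hK0 : 0 < K := by linarith
  obtain ⟨h1, h2⟩ := hA X ((le_max_left _ _).trans hX)
  refine ⟨by linarith, ?_, ?_⟩
  · have h3 : (X ^ (105 / 421 : ℝ)) ^ 5 ≤ K ^ 5 := pow_le_pow_left₀ (by positivity) hKl 5
    have h4 : (X ^ (105 / 421 : ℝ)) ^ 5 = X ^ (104 / 421 : ℝ) * X := by
      rw [← rpow_natCast, ← rpow_mul hX0.le]
      nth_rewrite 3 [← rpow_one X]
      rw [← rpow_add hX0]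
      norm_num
    have h5 : 4 * X ≤ X ^ (104 / 421 : ℝ) * X := mul_le_mul_of_nonneg_right h1 hX0.le
    linarith
  · have h3 : K ^ 49 ≤ (X ^ (109 / 421 : ℝ)) ^ 49 := pow_le_pow_left₀ hK0.le hKu 49
    have h4 : (X ^ (109 / 421 : ℝ)) ^ 49 * X ^ (1395 / 421 : ℝ) = X ^ 16 := by
      rw [← rpow_natCast, ← rpow_mul hX0.le, ← rpow_add hX0, ← rpow_natCast]
      norm_num
    have h5 : (X ^ (109 / 421 : ℝ)) ^ 49 * 4 ^ 16 ≤ X ^ 16 := by
      rw [← h4]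
      exact mul_le_mul_of_nonneg_left h2 (by positivity)
    have h6 : (X / 4) ^ 16 ≤ R ^ 16 := pow_le_pow_left₀ (by positivity) hR 16
    have h7 : (X / 4) ^ 16 = X ^ 16 / 4 ^ 16 := div_pow _ _ _
    have h8 : (X ^ (109 / 421 : ℝ)) ^ 49 ≤ X ^ 16 / 4 ^ 16 := (le_div_iff₀ (by positivity)).2 h5
    linarith

/-- **the octant bound for the exponent 263/421** -/
theorem octB : OctB (263 / 421) (1 / 1000) := by
  intro ε hε
  obtain ⟨e, he, heε, he1⟩ : ∃ e : ℝ, 0 < e ∧ e ≤ ε ∧ e ≤ 1 / 1000 :=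
    ⟨min ε (1 / 1000), lt_min hε (by norm_num), min_le_left _ _, min_le_right _ _⟩
  obtain ⟨C1, hC1, h6⟩ := Pool.Agent.Helper46.BF.oct6
  obtain ⟨C2, hC2, h0⟩ := Pool.Agent.Helper64.GS.oct_bound0 he he1
  obtain ⟨X1, hX1, hlarge⟩ := large
  refine ⟨25 * X1 ^ 2 + 25 + 2 * C1 + C2, by positivity, ?_⟩
  intro R₀ R K hR₀ hR hR4 hK hKu i hi c
  have hX0 : 0 < R₀ := by linarith
  have hR0 : 0 < R := by linarith
  have hK1 : (1 : ℝ) ≤ K := by exact_mod_cast hK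
  have hK0 : (0 : ℝ) < K := by linarith
  set W : ℝ := R₀ ^ (263 / 421 - 1 / 2 + ε) * (K : ℝ) ^ (3 / 2 : ℝ) with hW
  have hW0 : 0 < W := by positivity
  have hgoal : ‖bs (oct K) K i R c‖ ≤ (25 * X1 ^ 2 + 25 + 2 * C1 + C2) * W → ‖bs (oct K) K i R c‖ ≤
      (25 * X1 ^ 2 + 25 + 2 * C1 + C2) * R₀ ^ (263 / 421 - 1 / 2 + ε) * (K : ℝ) ^ (3 / 2 : ℝ) := by
    intro h
    rw [mul_assoc]
    exact h
  apply hgoal
  have hp0 : 0 ≤ 25 * X1 ^ 2 * W := by positivity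
  have hp1 : 0 ≤ 25 * W := by positivity
  have hp2 : 0 ≤ 2 * C1 * W := by positivity
  have hp3 : 0 ≤ C2 * W := by positivity
  rcases le_total (K : ℝ) (R₀ ^ (105 / 421 : ℝ)) with hA | hA
  · have h1 := (oct_triv (i := i) (R := R) hK c).trans (rA hε hR₀ hK1 hA)
    have h2 : 25 * R₀ ^ (263 / 421 - 1 / 2 + ε) * (K : ℝ) ^ (3 / 2 : ℝ) = 25 * W := by rw [hW]; ring
    rw [h2] at h1
    nlinarith
  rcases le_total (R₀ ^ (109 / 421 : ℝ)) (K : ℝ) with hB | hB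
  · have hl : R₀ ^ (1 / 4 + e) ≤ (K : ℝ) :=
      (rpow_le_rpow_of_exponent_le hR₀ (by linarith)).trans hB
    have hu : (K : ℝ) ≤ R₀ ^ (7 / 18 - e) :=
      hKu.trans (rpow_le_rpow_of_exponent_le hR₀ (by linarith))
    have h1 := h0 R₀ R K hR₀ hR hR4 hl hu i hi c
    rw [rpow_zero, mul_one] at h1
    have h2 := h1.trans (rC hC2 heε hR₀ hK1 hB)
    have h3 : C2 * R₀ ^ (263 / 421 - 1 / 2 + ε) * (K : ℝ) ^ (3 / 2 : ℝ) = C2 * W := by rw [hW]; ring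
    rw [h3] at h2
    nlinarith
  rcases le_total R₀ X1 with hs | hs
  · have h1 := oct_triv (i := i) (R := R) hK c
    have h2 : (K : ℝ) ≤ X1 := by
      refine hB.trans (le_trans ?_ hs)
      calc R₀ ^ (109 / 421 : ℝ) ≤ R₀ ^ (1 : ℝ) := rpow_le_rpow_of_exponent_le hR₀ (by norm_num)
        _ = R₀ := rpow_one _
    have h3 : (K : ℝ) ^ 2 ≤ X1 ^ 2 := pow_le_pow_left₀ hK0.le h2 2
    have h4 : 1 ≤ W := by
      rw [hW]
      have a1 : 1 ≤ R₀ ^ (263 / 421 - 1 / 2 + ε) := one_le_rpow hR₀ (by linarith)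
      have a2 : 1 ≤ (K : ℝ) ^ (3 / 2 : ℝ) := one_le_rpow hK1 (by norm_num)
      nlinarith
    have h5 : 25 * X1 ^ 2 * 1 ≤ 25 * X1 ^ 2 * W := mul_le_mul_of_nonneg_left h4 (by positivity)
    nlinarith
  · obtain ⟨a1, a2, a3⟩ := hlarge R₀ R K hs hR hR4 hK1 hA hB
    have h1 := h6 R K a1 hK a2 a3 i (by rcases hi with rfl | rfl <;> norm_num) c
    have h2 := h1.trans (rB hε hC1 hR₀ hR0 hR4 hK1 hB)
    have h3 : 2 * C1 * R₀ ^ (263 / 421 - 1 / 2 + ε) * (K : ℝ) ^ (3 / 2 : ℝ) = 2 * C1 * W := by rw [hW]; ring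
    rw [h3] at h2
    nlinarith

/-- **The circle problem with the exponent `263/421 + ε`**, for all radii and all centres. -/
theorem main {ε : ℝ} (hε : 0 < ε) : ∃ C : ℝ, ∀ R : ℝ, 1 ≤ R → ∀ c : ℝ × ℝ,
    |dcnt c R - π * R ^ 2| ≤ C * R ^ (263 / 421 + ε) :=
  asm (by norm_num) (by norm_num) (by norm_num) octB hε

end Pool.Agent.Helper92.CX
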